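import Pool.Agent.Helper38.HN.Chain
import Pool.Agent.Helper47.HN.Norm

/-!
# Rational points on the curves of the chain
-/

set_option autoImplicit false

namespace Pool.Agent.Helper38.HN

open Pool.Agent.Helper28.HN

section scale

variable {m : ℕ} {B : Type*} [Field B]

theorem lf_smul_smul (c : Ix m → B) (r : Fin m) (a b : B) (x y : I m → B) :
    lf c r (fun i => a * x i) (fun i => b * y i) = a * b * lf c r x y := by
  unfold lf
  simp only [Finset.mul_sum]
  refine Finset.sum_congr rfl fun i _ => Finset.sum_congr rfl fun j _ => ?_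
  ring

theorem qf_smul_smul (c : Ix m → B) (a b : B) (x y : I m → B) :
    qf c (fun i => a * x i) (fun i => a * x i) (fun i => b * y i) (fun i => b * y i) =
      a ^ 2 * b ^ 2 * qf c x x y y := by
  unfold qf
  simp only [Finset.mul_sum]
  refine Finset.sum_congr rfl fun i _ => Finset.sum_congr rfl fun j _ =>
    Finset.sum_congr rfl fun k _ => Finset.sum_congr rfl fun l _ => ?_
  ring

theorem aff_div (x : I m → B) (h : x 0 ≠ 0) :
    aff (fun i : Fin (m + 1) => x i.succ / x 0) = fun i => (x 0)⁻¹ * x i := by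
  funext i
  unfold aff
  refine Fin.cases ?_ (fun j => ?_) i
  · rw [Fin.cons_zero, inv_mul_cancel₀ h]
  · rw [Fin.cons_succ, div_eq_mul_inv, mul_comm]

theorem onX_aff {c : Ix m → B} {x y : I m → B} (h : OnX c x y) (hx : x 0 ≠ 0) (hy : y 0 ≠ 0) :
    OnX c (aff fun i : Fin (m + 1) => x i.succ / x 0)
      (aff fun i : Fin (m + 1) => y i.succ / y 0) := by
  rw [aff_div x hx, aff_div y hy]
  refine ⟨fun r => ?_, ?_⟩
  · rw [lf_smul_smul, h.1 r, mul_zero]
  · rw [qf_smul_smul, h.2, mul_zero]

end scale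

section clear

variable {m : ℕ} {K K' : Type} [Field K] [Field K'] [Algebra K K']

/-- The value of `F` at the affine point of `(X, Y)`, after a homomorphism `φ` to a field. -/
noncomputable def val {B : Type} [Field B] (φ : Polynomial K' →+* B)
    (X Y : I m → Polynomial K') (F : MvPolynomial (Fin (m + 1) ⊕ Fin (m + 1)) K) : B :=
  F.eval₂ (φ.comp (Polynomial.C.comp (algebraMap K K')))
    (Sum.elim (fun i : Fin (m + 1) => φ (X i.succ) / φ (X 0))
      (fun i : Fin (m + 1) => φ (Y i.succ) / φ (Y 0)))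

theorem clear (X Y : I m → Polynomial K') (F : MvPolynomial (Fin (m + 1) ⊕ Fin (m + 1)) K) :
    ∃ (e : ℕ) (P : Polynomial K'), ∀ (B : Type) [Field B] (φ : Polynomial K' →+* B),
      φ (X 0) ≠ 0 → φ (Y 0) ≠ 0 → φ P = φ (X 0 * Y 0) ^ e * val φ X Y F := by
  induction F using MvPolynomial.induction_on with
  | C a =>
    refine ⟨0, Polynomial.C (algebraMap K K' a), fun B _ φ _ _ => ?_⟩
    simp [val]
  | add F G hF hG =>
    obtain ⟨e, P, hP⟩ := hF
    obtain ⟨f, Q, hQ⟩ := hG
    refine ⟨e + f, (X 0 * Y 0) ^ f * P + (X 0 * Y 0) ^ e * Q, fun B _ φ hx hy => ?_⟩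
    have h : val φ X Y (F + G) = val φ X Y F + val φ X Y G := by
      simp only [val, MvPolynomial.eval₂_add]
    rw [map_add, map_mul, map_mul, map_pow, map_pow, hP B φ hx hy, hQ B φ hx hy, h]
    ring
  | mul_X F s hF =>
    obtain ⟨e, P, hP⟩ := hF
    rcases s with i | i
    · refine ⟨e + 1, P * (X i.succ * Y 0), fun B _ φ hx hy => ?_⟩
      have h : val φ X Y (F * MvPolynomial.X (Sum.inl i)) =
          val φ X Y F * (φ (X i.succ) / φ (X 0)) := by
        simp only [val, MvPolynomial.eval₂_mul, MvPolynomial.eval₂_X, Sum.elim_inl]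
      rw [map_mul, hP B φ hx hy, h, map_mul, map_mul]
      field_simp
      ring
    · refine ⟨e + 1, P * (Y i.succ * X 0), fun B _ φ hx hy => ?_⟩
      have h : val φ X Y (F * MvPolynomial.X (Sum.inr i)) =
          val φ X Y F * (φ (Y i.succ) / φ (Y 0)) := by
        simp only [val, MvPolynomial.eval₂_mul, MvPolynomial.eval₂_X, Sum.elim_inr]
      rw [map_mul, hP B φ hx hy, h, map_mul, map_mul]
      field_simp
      ring

/-- If `F` vanishes at the points of infinitely many parameters, it vanishes at the generic point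
of the curve. -/
theorem val_eq_zero (X Y : I m → Polynomial K') (F : MvPolynomial (Fin (m + 1) ⊕ Fin (m + 1)) K)
    (hinf : {t : K' | (X 0).eval t ≠ 0 ∧ (Y 0).eval t ≠ 0 ∧
      val (Polynomial.evalRingHom t) X Y F = 0}.Infinite) {B : Type} [Field B]
    (φ : Polynomial K' →+* B) (hφ : Function.Injective φ) : val φ X Y F = 0 := by
  obtain ⟨e, P, hP⟩ := clear X Y F
  have hX : X 0 ≠ 0 := by
    rintro h
    obtain ⟨t, ht⟩ := hinf.nonempty
    exact ht.1 (by rw [h, Polynomial.eval_zero])
  have hY : Y 0 ≠ 0 := by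
    rintro h
    obtain ⟨t, ht⟩ := hinf.nonempty
    exact ht.2.1 (by rw [h, Polynomial.eval_zero])
  have hP0 : P = 0 := by
    refine Polynomial.eq_zero_of_infinite_isRoot P (hinf.mono ?_)
    rintro t ⟨h1, h2, h3⟩
    have h := hP K' (Polynomial.evalRingHom t) h1 h2
    rw [h3, mul_zero] at h
    exact h
  have hx : φ (X 0) ≠ 0 := fun h => hX (hφ (by rw [h, map_zero]))
  have hy : φ (Y 0) ≠ 0 := fun h => hY (hφ (by rw [h, map_zero]))
  have h := hP B φ hx hy
  rw [hP0, map_zero] at h
  rcases mul_eq_zero.1 h.symm with h | h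
  · exact absurd h (pow_ne_zero _ (by rw [map_mul]; exact mul_ne_zero hx hy))
  · exact h

/-- The rational point of the chart at the parameter `t` is on the complete intersection. -/
theorem chart_point {c : Ix m → K'} {X Y : I m → Polynomial K'}
    (h : OnX (fun e => Polynomial.C (c e)) X Y) {B : Type} [Field B] (φ : Polynomial K' →+* B)
    (hx : φ (X 0) ≠ 0) (hy : φ (Y 0) ≠ 0) :
    OnX (fun e => φ (Polynomial.C (c e))) (aff fun i : Fin (m + 1) => φ (X i.succ) / φ (X 0))
      (aff fun i : Fin (m + 1) => φ (Y i.succ) / φ (Y 0)) := by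
  have h1 := Pool.Agent.Helper47.HN.OnX.map φ h
  exact onX_aff h1 hx hy

/-- All elements of the chart ideal vanish at the points of the curves of the chain. -/
theorem val_chartIdeal {c : Ix m → K} {X Y : I m → Polynomial K'}
    (h : OnX (fun e => Polynomial.C (algebraMap K K' (c e))) X Y) {B : Type} [Field B]
    (φ : Polynomial K' →+* B) (hx : φ (X 0) ≠ 0) (hy : φ (Y 0) ≠ 0)
    (F : MvPolynomial (Fin (m + 1) ⊕ Fin (m + 1)) K)
    (hF : F ∈ Pool.Agent.Helper47.HN.chartIdeal c) : val φ X Y F = 0 := by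
  letI : Algebra K B := (φ.comp (Polynomial.C.comp (algebraMap K K'))).toAlgebra
  have h1 := chart_point h φ hx hy
  have h2 := (Pool.Agent.Helper47.HN.chartIdeal_le' (S := B) c
    (fun i : Fin (m + 1) => φ (X i.succ) / φ (X 0))
    (fun i : Fin (m + 1) => φ (Y i.succ) / φ (Y 0))).2 h1
  exact RingHom.mem_ker.1 (h2 hF)

/-- There are infinitely many parameters with a point in the chart. -/
theorem infinite_good [Infinite K'] {X Y : I m → Polynomial K'} (hX : X 0 ≠ 0) (hY : Y 0 ≠ 0)
    {T : Set K'} (hT : T.Finite) :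
    {t : K' | t ∉ T ∧ (X 0).eval t ≠ 0 ∧ (Y 0).eval t ≠ 0}.Infinite := by
  have h : (T ∪ {t | (X 0 * Y 0).IsRoot t}).Finite :=
    hT.union (Polynomial.finite_setOf_isRoot (mul_ne_zero hX hY))
  refine h.infinite_compl.mono ?_
  intro t ht
  simp only [Set.mem_compl_iff, Set.mem_union, Set.mem_setOf_eq, Polynomial.IsRoot.def,
    Polynomial.eval_mul, mul_eq_zero, not_or] at ht
  exact ⟨ht.1, ht.2.1, ht.2.2⟩

/-- A polynomial which vanishes at almost all rational points of the curve `(X, Y)` vanishes at its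
generic point. -/
theorem val_generic [Infinite K'] {X Y : I m → Polynomial K'} (hX : X 0 ≠ 0) (hY : Y 0 ≠ 0)
    (F : MvPolynomial (Fin (m + 1) ⊕ Fin (m + 1)) K) {T : Set K'} (hT : T.Finite)
    (h : ∀ t, t ∉ T → (X 0).eval t ≠ 0 → (Y 0).eval t ≠ 0 →
      val (Polynomial.evalRingHom t) X Y F = 0) {B : Type} [Field B]
    (φ : Polynomial K' →+* B) (hφ : Function.Injective φ) : val φ X Y F = 0 := by
  refine val_eq_zero X Y F ((infinite_good hX hY hT).mono ?_) φ hφ
  rintro t ⟨h1, h2, h3⟩
  exact ⟨h2, h3, h t h1 h2 h3⟩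

/-- The homomorphism to the rational functions over `k`. -/
noncomputable def toFrac (K' k : Type) [Field K'] [Field k] [Algebra K' k] :
    Polynomial K' →+* FractionRing (Polynomial k) :=
  (algebraMap (Polynomial k) (FractionRing (Polynomial k))).comp
    (Polynomial.mapRingHom (algebraMap K' k))

theorem toFrac_injective (k : Type) [Field k] [Algebra K' k] :
    Function.Injective (toFrac K' k) := by
  unfold toFrac
  rw [RingHom.coe_comp]
  exact (IsFractionRing.injective (Polynomial k) (FractionRing (Polynomial k))).comp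
    (Polynomial.map_injective _ (algebraMap K' k).injective)

end clear

end Pool.Agent.Helper38.HN
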