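import Pool.Agent.Helper28.HN.Defs

/-!
# The chain of curves lies on the complete intersection
-/

set_option autoImplicit false

namespace Pool.Agent.Helper38.HN

open Pool.Agent.Helper28.HN

section basic

variable {m : ℕ} {S : Type*} [CommRing S]

theorem qf_symm_x (c : Ix m → S) (x x' y y' : I m → S) :
    qf c x x' y y' = qf c x' x y y' := by
  unfold qf
  rw [Finset.sum_comm]
  refine Finset.sum_congr rfl fun j _ => Finset.sum_congr rfl fun i _ =>
    Finset.sum_congr rfl fun k _ => Finset.sum_congr rfl fun l _ => ?_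
  unfold pq
  ring

theorem qf_symm_y (c : Ix m → S) (x x' y y' : I m → S) :
    qf c x x' y y' = qf c x x' y' y := by
  unfold qf
  refine Finset.sum_congr rfl fun i _ => Finset.sum_congr rfl fun j _ => ?_
  rw [Finset.sum_comm]
  refine Finset.sum_congr rfl fun l _ => Finset.sum_congr rfl fun k _ => ?_
  unfold pq
  ring

theorem qf_lin_x (c : Ix m → S) (a b : S) (x x' z y y' : I m → S) :
    qf c (fun i => a * x i + b * x' i) z y y' = a * qf c x z y y' + b * qf c x' z y y' := by
  unfold qf
  simp only [Finset.mul_sum, ← Finset.sum_add_distrib]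
  refine Finset.sum_congr rfl fun i _ => Finset.sum_congr rfl fun j _ =>
    Finset.sum_congr rfl fun k _ => Finset.sum_congr rfl fun l _ => ?_
  ring

theorem qf_lin_y (c : Ix m → S) (a b : S) (x x' y y' z : I m → S) :
    qf c x x' (fun i => a * y i + b * y' i) z = a * qf c x x' y z + b * qf c x x' y' z := by
  unfold qf
  simp only [Finset.mul_sum, ← Finset.sum_add_distrib]
  refine Finset.sum_congr rfl fun i _ => Finset.sum_congr rfl fun j _ =>
    Finset.sum_congr rfl fun k _ => Finset.sum_congr rfl fun l _ => ?_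
  ring

theorem lf_lin_x (c : Ix m → S) (r : Fin m) (a b : S) (x x' y : I m → S) :
    lf c r (fun i => a * x i + b * x' i) y = a * lf c r x y + b * lf c r x' y := by
  unfold lf
  simp only [Finset.mul_sum, ← Finset.sum_add_distrib]
  refine Finset.sum_congr rfl fun i _ => Finset.sum_congr rfl fun j _ => ?_
  ring

theorem lf_lin_y (c : Ix m → S) (r : Fin m) (a b : S) (x y y' : I m → S) :
    lf c r x (fun i => a * y i + b * y' i) = a * lf c r x y + b * lf c r x y' := by
  unfold lf
  simp only [Finset.mul_sum, ← Finset.sum_add_distrib]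
  refine Finset.sum_congr rfl fun i _ => Finset.sum_congr rfl fun j _ => ?_
  ring

theorem qf_quad_x (c : Ix m → S) (a b : S) (x ξ y : I m → S) :
    qf c (fun i => a * x i + b * ξ i) (fun i => a * x i + b * ξ i) y y =
      a ^ 2 * qf c x x y y + 2 * a * b * qf c x ξ y y + b ^ 2 * qf c ξ ξ y y := by
  rw [qf_lin_x, qf_symm_x c x, qf_symm_x c ξ, qf_lin_x, qf_lin_x, qf_symm_x c ξ x]
  ring

theorem qf_quad_y (c : Ix m → S) (a b : S) (x y η : I m → S) :
    qf c x x (fun i => a * y i + b * η i) (fun i => a * y i + b * η i) =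
      a ^ 2 * qf c x x y y + 2 * a * b * qf c x x y η + b ^ 2 * qf c x x η η := by
  rw [qf_lin_y, qf_symm_y c x x y, qf_symm_y c x x η, qf_lin_y, qf_lin_y, qf_symm_y c x x η y]
  ring

theorem lf_single_x (c : Ix m → S) (r : Fin m) (x y : I m → S) :
    lf c r x y = ∑ i, x i * lf c r (Pi.single i 1) y := by
  have h : ∀ i, lf c r (Pi.single i 1) y = ∑ j, c (.inl (r, i, j)) * y j := by
    intro i
    unfold lf
    rw [Finset.sum_eq_single i]
    · simp
    · intro b _ hb
      simp [Pi.single_eq_of_ne hb]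
    · simp
  simp only [h]
  unfold lf
  refine Finset.sum_congr rfl fun i _ => ?_
  rw [Finset.mul_sum]
  refine Finset.sum_congr rfl fun j _ => ?_
  ring

theorem lf_single_y (c : Ix m → S) (r : Fin m) (x y : I m → S) :
    lf c r x y = ∑ j, y j * lf c r x (Pi.single j 1) := by
  have h : ∀ j, lf c r x (Pi.single j 1) = ∑ i, c (.inl (r, i, j)) * x i := by
    intro j
    unfold lf
    refine Finset.sum_congr rfl fun i _ => ?_
    rw [Finset.sum_eq_single j]
    · simp
    · intro b _ hb
      simp [Pi.single_eq_of_ne hb]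
    · simp
  simp only [h]
  unfold lf
  rw [Finset.sum_comm]
  refine Finset.sum_congr rfl fun j _ => ?_
  rw [Finset.mul_sum]
  refine Finset.sum_congr rfl fun i _ => ?_
  ring

/-- The direction `xh` is a solution of the linear equations over `y`. -/
theorem lf_xh (c : Ix m → S) (r : Fin m) (y : I m → S) : lf c r (xh c y) y = 0 := by
  rw [lf_single_x]
  unfold xh vh
  rw [Fin.sum_univ_succ, Fin.sum_univ_castSucc]
  simp only [Fin.cons_zero, Fin.cons_succ, Fin.snoc_castSucc, Fin.snoc_last, zero_mul, zero_add]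
  have h := congrFun (congrArg (fun A => A.mulVec
    (fun r => lf c r (Pi.single (Fin.last (m + 1)) 1) y)) (Matrix.mul_adjugate (Nx c y))) r
  simp only [← Matrix.mulVec_mulVec, Matrix.smul_mulVec, Matrix.one_mulVec, Pi.smul_apply,
    smul_eq_mul] at h
  rw [Fin.succ_last, ← h]
  simp only [Matrix.mulVec, dotProduct, Pi.neg_apply, Nx, neg_mul, Finset.sum_neg_distrib]
  rw [neg_add_eq_zero]
  refine Finset.sum_congr rfl fun i _ => mul_comm _ _

/-- The point `Y1` lies on the line over `x`. -/
theorem lf_Y1 (c : Ix m → S) (r : Fin m) (x : I m → S) : lf c r x (Y1 c x) = 0 := by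
  rw [lf_single_y]
  unfold Y1
  rw [Fin.sum_univ_succ, Fin.sum_univ_succ]
  simp only [Fin.cons_zero, Fin.cons_succ, zero_mul, zero_add]
  have h := congrFun (congrArg (fun A => A.mulVec
    (fun r => lf c r x (Pi.single 1 1))) (Matrix.mul_adjugate (Mx c x))) r
  simp only [← Matrix.mulVec_mulVec, Matrix.smul_mulVec, Matrix.one_mulVec, Pi.smul_apply,
    smul_eq_mul] at h
  rw [Fin.succ_zero_eq_one, ← h]
  simp only [Matrix.mulVec, dotProduct, Pi.neg_apply, Mx, neg_mul, Finset.sum_neg_distrib]
  rw [add_neg_eq_zero]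
  refine Finset.sum_congr rfl fun i _ => mul_comm _ _

/-- The point `Y0` lies on the line over `x`. -/
theorem lf_Y0 (c : Ix m → S) (r : Fin m) (x : I m → S) : lf c r x (Y0 c x) = 0 := by
  rw [lf_single_y]
  unfold Y0
  rw [Fin.sum_univ_succ, Fin.sum_univ_succ]
  simp only [Fin.cons_zero, Fin.cons_succ, zero_mul, zero_add]
  have h := congrFun (congrArg (fun A => A.mulVec
    (fun r => lf c r x (Pi.single 0 1))) (Matrix.mul_adjugate (Mx c x))) r
  simp only [← Matrix.mulVec_mulVec, Matrix.smul_mulVec, Matrix.one_mulVec, Pi.smul_apply,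
    smul_eq_mul] at h
  rw [← h]
  simp only [Matrix.mulVec, dotProduct, Pi.neg_apply, Mx, neg_mul, Finset.sum_neg_distrib]
  rw [add_neg_eq_zero]
  refine Finset.sum_congr rfl fun i _ => mul_comm _ _

/-- The involution over `y` preserves the complete intersection. -/
theorem onX_nx {c : Ix m → S} {x y : I m → S} (h : OnX c x y) : OnX c (nx c x y) y := by
  have e : nx c x y = fun i => qf c (xh c y) (xh c y) y y * x i +
      (- (2 * qf c x (xh c y) y y)) * xh c y i := by
    funext i
    unfold nx
    ring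
  rw [e]
  refine ⟨fun r => ?_, ?_⟩
  · rw [lf_lin_x, h.1 r, lf_xh]
    ring
  · rw [qf_quad_x, h.2]
    ring

/-- The involution over `x` preserves the complete intersection. -/
theorem onX_ny {c : Ix m → S} {x y : I m → S} (h : OnX c x y) : OnX c x (ny c x y) := by
  have e : ny c x y = fun i => Ah c x * y i + (- (2 * qf c x x y (Y1 c x))) * Y1 c x i := by
    funext i
    unfold ny
    ring
  rw [e]
  refine ⟨fun r => ?_, ?_⟩
  · rw [lf_lin_y, h.1 r, lf_Y1]
    ring
  · rw [qf_quad_y, h.2]
    unfold Ah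
    ring

end basic

section chain

variable {m : ℕ}

/-- All curves of the chain lie on the complete intersection. -/
theorem onX_ch {S : Type*} [CommRing S] {c : Ix m → S} {x0 ξ0 y1 : I m → S}
    (l0 : ∀ r, lf c r x0 y1 = 0) (l1 : ∀ r, lf c r ξ0 y1 = 0) (q0 : qf c x0 x0 y1 y1 = 0)
    (q1 : qf c x0 ξ0 y1 y1 = 0) (q2 : qf c ξ0 ξ0 y1 y1 = 0) (N : ℕ) :
    OnX (fun e => Polynomial.C (c e)) (ch c x0 ξ0 y1 N).1 (ch c x0 ξ0 y1 N).2 := by
  induction N with
  | zero =>
    have e : (ch c x0 ξ0 y1 0).1 = fun i => 1 * (Polynomial.C (x0 i)) +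
        Polynomial.X * (Polynomial.C (ξ0 i)) := by
      funext i
      simp [ch]
    have e2 : (ch c x0 ξ0 y1 0).2 = fun i => Polynomial.C (y1 i) := rfl
    have hl : ∀ (r : Fin m) (a b : I m → S), lf (fun e => Polynomial.C (c e)) r
        (fun i => Polynomial.C (a i)) (fun i => Polynomial.C (b i)) =
        Polynomial.C (lf c r a b) := by
      intro r a b
      simp [lf]
    have hq : ∀ a a' b b' : I m → S, qf (fun e => Polynomial.C (c e))
        (fun i => Polynomial.C (a i)) (fun i => Polynomial.C (a' i))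
        (fun i => Polynomial.C (b i)) (fun i => Polynomial.C (b' i)) =
        Polynomial.C (qf c a a' b b') := by
      intro a a' b b'
      simp [qf, pq]
    rw [e, e2]
    refine ⟨fun r => ?_, ?_⟩
    · rw [lf_lin_x, hl, hl, l0, l1]
      simp
    · rw [qf_quad_x, hq, hq, hq, q0, q1, q2]
      simp
  | succ N ih =>
    rw [ch]
    split_ifs with hN
    · exact onX_ny ih
    · exact onX_nx ih

end chain

end Pool.Agent.Helper38.HN
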